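import Pool.Agent.Helper99.Full.PowGen
import Pool.Agent.Helper32.ProC.Mod2

/-!
# MP_ac806c_lc, packet AG: the acting group
-/

set_option autoImplicit false
set_option linter.unusedSectionVars false

namespace Pool.Agent.Helper99.Full

open Pool.Agent.Helper85.ProP Pool.Agent.Helper27.ProP Pool.Agent.Helper30.ProP
  Pool.Agent.Helper30.Full Pool.Agent.Helper85.ProC Filter Topology IsLocalRing

universe u

section alg

variable {G : Type u} [Group G] (C : Subgroup G) [C.Normal]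

lemma cm_mem_iff (a b : G) : cm a b ∈ C ↔ (a : G ⧸ C) * b = b * a := by
  rw [← QuotientGroup.eq_one_iff]
  have h1 : ((cm a b : G) : G ⧸ C) = (a : G ⧸ C) * b * (a : G ⧸ C)⁻¹ * (b : G ⧸ C)⁻¹ := rfl
  rw [h1]
  constructor
  · intro h
    exact commutatorElement_eq_one_iff_mul_comm.1 h
  · intro h
    exact commutatorElement_eq_one_iff_mul_comm.2 h

/-- the centre of the centralizer of `q` -/
def Sb (q : G ⧸ C) : Subgroup (G ⧸ C) :=
  Subgroup.centralizer {q} ⊓ Subgroup.centralizer (Subgroup.centralizer {q} : Set (G ⧸ C))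

lemma Sb_comm (q : G ⧸ C) {x y : G ⧸ C} (hx : x ∈ Sb C q) (hy : y ∈ Sb C q) : Commute x y :=
  Subgroup.mem_centralizer_iff.1 hy.2 x hx.1

/-- the `N`-th powers -/
def Pb (q : G ⧸ C) (N : ℕ) : Subgroup (G ⧸ C) where
  carrier := {x | ∃ r ∈ Sb C q, r ^ N = x}
  one_mem' := ⟨1, (Sb C q).one_mem, one_pow N⟩
  mul_mem' := by
    rintro _ _ ⟨r, hr, rfl⟩ ⟨s, hs, rfl⟩
    exact ⟨r * s, (Sb C q).mul_mem hr hs, (Sb_comm C q hr hs).mul_pow N⟩
  inv_mem' := by
    rintro _ ⟨r, hr, rfl⟩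
    exact ⟨r⁻¹, (Sb C q).inv_mem hr, inv_pow r N⟩

end alg

theorem stmtAG : StmtAG.{u} := by
  intro p _ G _ _ _ _ _ _ hp D hK n hser g₀
  set C : Subgroup G := Subgroup.centralizer (D.L : Set G) with hCdef
  have hCn : C.Normal := by
    rw [hCdef]
    infer_instance
  have hCc : IsClosed (C : Set G) := Set.isClosed_centralizer (D.L : Set G)
  have : T2Space (G ⧸ C) := inferInstance
  -- elements of `C` act trivially
  have htriv : ∀ c ∈ C, ∀ v, sg D c v = v := by
    intro c hc v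
    obtain ⟨a, ha, rfl⟩ := mkC_surj v
    rw [sg_apply, cj_mk, mkC_eq]
    have h1 : a * c = c * a := Subgroup.mem_centralizer_iff.1 hc a ha
    have h2 : (c * a * c⁻¹)⁻¹ * a = 1 := by
      rw [← h1, mul_inv_cancel_right, inv_mul_cancel]
    rw [h2]
    exact D.K.one_mem
  have hVC : D.L ≤ C := by
    intro a ha
    rw [hCdef, Subgroup.mem_centralizer_iff]
    intro b hb
    have h1 := D.ab b hb a ha
    rw [hK, Subgroup.mem_bot] at h1
    exact commutatorElement_eq_one_iff_mul_comm.1 h1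
  -- the group `S`
  set S : Subgroup G := (Sb C (g₀ : G ⧸ C)).comap (QuotientGroup.mk' C) with hSdef
  have memS' : ∀ s : G, s ∈ S ↔ (s : G ⧸ C) ∈ Sb C (g₀ : G ⧸ C) := fun s => Iff.rfl
  have memA0 : ∀ s : G, (s : G ⧸ C) ∈ Subgroup.centralizer {(g₀ : G ⧸ C)} ↔ cm s g₀ ∈ C := by
    intro s
    rw [Subgroup.mem_centralizer_iff, cm_mem_iff]
    simp only [Set.mem_singleton_iff, forall_eq]
    exact eq_comm
  have memS : ∀ s : G, s ∈ S ↔ S0 D.L g₀ s := by
    intro s
    rw [memS']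
    unfold Sb S0
    rw [Subgroup.mem_inf, memA0, Subgroup.mem_centralizer_iff]
    constructor
    · rintro ⟨h1, h2⟩
      refine ⟨h1, fun t ht => ?_⟩
      have h3 := h2 (t : G ⧸ C) ((memA0 t).2 ht)
      exact (cm_mem_iff C s t).2 h3.symm
    · rintro ⟨h1, h2⟩
      refine ⟨h1, fun q hq => ?_⟩
      obtain ⟨t, rfl⟩ := QuotientGroup.mk_surjective q
      exact ((cm_mem_iff C s t).1 (h2 t ((memA0 t).1 hq))).symm
  have hSbc : IsClosed (Sb C (g₀ : G ⧸ C) : Set (G ⧸ C)) := by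
    unfold Sb
    rw [Subgroup.coe_inf]
    exact (Set.isClosed_centralizer _).inter (Set.isClosed_centralizer _)
  have hSc : IsClosed (S : Set G) := hSbc.preimage QuotientGroup.continuous_mk
  have hCS : C ≤ S := by
    intro c hc
    rw [memS', (QuotientGroup.eq_one_iff c).2 hc]
    exact Subgroup.one_mem _
  have hcmS : ∀ a ∈ S, ∀ b ∈ S, cm a b ∈ C := by
    intro a ha b hb
    exact (cm_mem_iff C a b).2 (Sb_comm C _ ha hb)
  -- the group `A`
  set A : Subgroup G := (Pb C (g₀ : G ⧸ C) (p ^ n)).comap (QuotientGroup.mk' C) with hAdef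
  have memA : ∀ s : G, s ∈ A ↔ ∃ r ∈ S, ((r ^ p ^ n : G) : G ⧸ C) = s := by
    intro s
    constructor
    · rintro ⟨q, hq, h⟩
      obtain ⟨r, rfl⟩ := QuotientGroup.mk_surjective q
      exact ⟨r, hq, h⟩
    · rintro ⟨r, hr, h⟩
      exact ⟨(r : G ⧸ C), hr, h⟩
  have hPc : IsClosed (Pb C (g₀ : G ⧸ C) (p ^ n) : Set (G ⧸ C)) := by
    have h1 : (Pb C (g₀ : G ⧸ C) (p ^ n) : Set (G ⧸ C)) =
        (fun x : G ⧸ C => x ^ p ^ n) '' (Sb C (g₀ : G ⧸ C) : Set (G ⧸ C)) := by
      ext x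
      constructor
      · rintro ⟨r, hr, h⟩; exact ⟨r, hr, h⟩
      · rintro ⟨r, hr, h⟩; exact ⟨r, hr, h⟩
    rw [h1]
    exact (hSbc.isCompact.image (continuous_pow _)).isClosed
  have hAc : IsClosed (A : Set G) := hPc.preimage QuotientGroup.continuous_mk
  have hCA : C ≤ A := by
    intro c hc
    rw [memA]
    exact ⟨1, S.one_mem, by rw [one_pow, (QuotientGroup.eq_one_iff c).2 hc]; rfl⟩
  have hpowA : ∀ r ∈ S, r ^ p ^ n ∈ A := fun r hr => (memA _).2 ⟨r, hr, rfl⟩
  have hAS : A ≤ S := by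
    intro s hs
    obtain ⟨r, hr, h⟩ := (memA s).1 hs
    rw [memS', ← h]
    exact (Sb C (g₀ : G ⧸ C)).pow_mem hr _
  have hact : ∀ r s : G, ((r : G) : G ⧸ C) = s → ∀ v, sg D r v = sg D s v := by
    intro r s h v
    have h1 : r⁻¹ * s ∈ C := QuotientGroup.eq.1 h
    have h2 : sg D s v = sg D r (sg D (r⁻¹ * s) v) := by
      have e : s = r * (r⁻¹ * s) := by group
      conv_lhs => rw [e, map_mul]
      rfl
    rw [h2, htriv _ h1]
  obtain ⟨d, t, ht, hgen⟩ := powgen p hp S C hSc hCc hCn hCS hcmS D.L hVC n hser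
  obtain ⟨M, hM1, hM2, hM3, hM4⟩ := Pool.Agent.Helper32.ProC.stmtMod2 p G hp D A hAc (by
    intro g hg h hh v
    have h1 : ((g * h : G) : G ⧸ C) = ((h * g : G) : G ⧸ C) :=
      Sb_comm C _ (hAS hg) (hAS hh)
    have h2 := hact _ _ h1 v
    rw [map_mul, map_mul] at h2
    exact h2) d t (by
      intro i
      obtain ⟨r, hr, h⟩ := ht i
      rw [h]
      exact hpowA r hr) (by
      intro H hH h1 h2 s hs
      have hCH : C ≤ H := fun c hc => h1 c (hCA hc) (htriv c hc)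
      obtain ⟨r, hr, h⟩ := (memA s).1 hs
      have h3 := hgen H hH hCH h2 r hr
      have h4 : (r ^ p ^ n)⁻¹ * s ∈ C := QuotientGroup.eq.1 h
      have h5 := H.mul_mem h3 (hCH h4)
      rwa [mul_inv_cancel_left] at h5)
  obtain ⟨hH, -⟩ := Pool.Agent.Helper49.ProP.stmtHyp p d
  have hcont : Continuous fun z : (Fin d → ℤ_[p]) × CC D => rhoS p d z.1 • z.2 := by
    rw [continuous_iff_continuousAt]
    rintro ⟨q0, v0⟩
    rw [ContinuousAt, ← tendsto_sub_nhds_zero_iff]
    intro V hV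
    obtain ⟨V', hV', hV'o, h0⟩ := mem_nhds_iff.1 hV
    obtain ⟨U, hUo, hUV, -⟩ := basis_sg D p hp V' hV'o h0
    obtain ⟨m, hm⟩ := hM4 U hUo
    have e1 : ∀ᶠ z : (Fin d → ℤ_[p]) × CC D in 𝓝 (q0, v0),
        ∃ w : Fin d → ℤ_[p], z.1 - q0 = (p : ℤ_[p]) ^ m • w :=
      (continuous_fst.continuousAt (x := (q0, v0))).eventually (eventually_padic_fun q0 m)
    have e2 : ∀ᶠ z : (Fin d → ℤ_[p]) × CC D in 𝓝 (q0, v0),
        rhoS p d q0 • (z.2 - v0) ∈ (U : Set (CC D)) := by
      have h1 : Continuous fun z : (Fin d → ℤ_[p]) × CC D => rhoS p d q0 • (z.2 - v0) :=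
        (hM3 (rhoS p d q0)).comp (continuous_snd.sub continuous_const)
      refine (h1.continuousAt (x := (q0, v0))).eventually (hUo.mem_nhds ?_)
      show rhoS p d q0 • (v0 - v0) ∈ U
      rw [sub_self, smul_zero]
      exact U.zero_mem
    rw [mem_map]
    filter_upwards [e1, e2] with z h1 h2
    obtain ⟨w, hw⟩ := h1
    rw [Set.mem_preimage]
    apply hV'
    apply hUV
    have e : z.1 = q0 + (p : ℤ_[p]) ^ m • w := by rw [← hw]; abel
    have e3 : rhoS p d z.1 • z.2 - rhoS p d q0 • v0 =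
        (rhoS p d q0 * (rhoS p d ((p : ℤ_[p]) ^ m • w) - 1)) • z.2 +
          rhoS p d q0 • (z.2 - v0) := by
      rw [e, hH.add, mul_sub, mul_one, sub_smul, smul_sub]
      abel
    show rhoS p d z.1 • z.2 - rhoS p d q0 • v0 ∈ U
    rw [e3]
    refine U.add_mem (hm _ ?_ _) h2
    exact Ideal.mul_mem_left _ _
      (Ideal.pow_le_pow_right (Nat.le_succ m) (hH.p_pow_smul_sub_one_mem w m))
  let b : Act p d (CC D) :=
    { σ := fun q => DistribSMul.toAddMonoidHom (CC D) (rhoS p d q)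
      zero := by
        ext v
        show rhoS p d 0 • v = v
        rw [hH.zero, one_smul]
      add := by
        intro a b
        ext v
        show rhoS p d (a + b) • v = rhoS p d a • (rhoS p d b • v)
        rw [hH.add, mul_smul]
      cont := hcont
      basis := by
        intro W hW h0
        obtain ⟨U, hUo, hUW, hinv, hpow⟩ := basis_sg D p hp W hW h0
        refine ⟨U, hUo, hUW, ?_, hpow⟩
        intro q x hx
        obtain ⟨h, -, hh⟩ := hM2 q
        show rhoS p d q • x ∈ U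
        rw [← hh]
        exact hinv h x hx }
  refine ⟨d, b, ?_, ?_⟩
  · intro q
    obtain ⟨h, hA, hh⟩ := hM2 q
    obtain ⟨r, hr, h3⟩ := (memA h).1 hA
    refine ⟨r, (memS r).1 hr, fun v => ?_⟩
    show rhoS p d q • v = _
    rw [← hh, hact _ _ h3]
  · intro r hr
    obtain ⟨q, hq⟩ := hM1 _ (hpowA r ((memS r).2 hr))
    exact ⟨q, fun v => (hq v).symm⟩

end Pool.Agent.Helper99.Full
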