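import Pool.Agent.Helper30.Full.GoalsM
import Pool.Agent.Helper10.ProC.Mod

/-!
# MP_ac806c_lc, packet ME: minimal configurations killed by `p`
-/

set_option autoImplicit false
set_option linter.unusedSectionVars false

namespace Pool.Agent.Helper99.Full

open Pool.Agent.Helper30.Full

universe u

section gen

variable {p : ℕ} [Fact p.Prime] {d : ℕ}

lemma cast_pow_smul (t : ℕ) (k : Fin d → ℤ_[p]) : (p : ℤ_[p]) ^ t • k = p ^ t • k := by
  rw [← Nat.cast_pow, Nat.cast_smul_eq_nsmul]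

lemma nsmul_mem' (A : Submodule ℤ_[p] (Fin d → ℤ_[p])) {k : Fin d → ℤ_[p]} (hk : k ∈ A) (n : ℕ) :
    n • k ∈ A := A.toAddSubgroup.nsmul_mem hk n

/-- `p^t B ⊆ A` pointwise implies `p^t B ⊆ A` uniformly -/
lemma unif (A B : Submodule ℤ_[p] (Fin d → ℤ_[p])) (h : ∀ q ∈ B, ∃ t : ℕ, p ^ t • q ∈ A) :
    ∃ t : ℕ, ∀ q ∈ B, p ^ t • q ∈ A := by
  let Q : ℕ →o Submodule ℤ_[p] (Fin d → ℤ_[p]) :=
    ⟨fun t => A.comap (LinearMap.lsmul ℤ_[p] (Fin d → ℤ_[p]) ((p : ℤ_[p]) ^ t)), by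
      refine monotone_nat_of_le_succ fun t k hk => ?_
      rw [Submodule.mem_comap, LinearMap.lsmul_apply] at hk ⊢
      rw [pow_succ', mul_smul]
      exact A.smul_mem _ hk⟩
  have hQ : ∀ t k, k ∈ Q t ↔ p ^ t • k ∈ A := by
    intro t k
    show k ∈ A.comap _ ↔ _
    rw [Submodule.mem_comap, LinearMap.lsmul_apply, cast_pow_smul]
  obtain ⟨n, hn⟩ := (monotone_stabilizes_iff_noetherian (R := ℤ_[p])
    (M := Fin d → ℤ_[p])).2 inferInstance Q
  refine ⟨n, fun q hq => ?_⟩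
  obtain ⟨t, ht⟩ := h q hq
  rw [← hQ] at ht ⊢
  rcases le_total t n with h1 | h1
  · exact Q.monotone h1 ht
  · rw [hn t h1]; exact ht

lemma finrank_mono {A B : Submodule ℤ_[p] (Fin d → ℤ_[p])} (h : A ≤ B) :
    Module.finrank ℤ_[p] A ≤ Module.finrank ℤ_[p] B := Submodule.finrank_mono h

end gen

section

variable {p : ℕ} [Fact p.Prime] {d : ℕ} {M : Type u} [AddCommGroup M] [TopologicalSpace M]
  [IsTopologicalAddGroup M] [CompactSpace M] [T2Space M] {b : Act p d M}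

/-- the elements of `S` which act trivially -/
noncomputable def SX (c : VC b) : Submodule ℤ_[p] (Fin d → ℤ_[p]) :=
  c.S ⊓ subm b (c.X1 : Set M) c.X2 c.c2 c.i2

lemma mem_SX {c : VC b} {k : Fin d → ℤ_[p]} : k ∈ SX c ↔ k ∈ c.S ∧ cTriv c k := by
  unfold SX
  rw [Submodule.mem_inf, mem_subm]
  rfl

lemma SX_le (c : VC b) : SX c ≤ c.S := inf_le_left

/-- the rank of a configuration -/
noncomputable def rk (c : VC b) : ℕ := Module.finrank ℤ_[p] c.S - Module.finrank ℤ_[p] (SX c)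

/-- the configurations of the first kind -/
def EE (c₀ c : VC b) : Prop :=
  Reach c₀ c ∧ (∀ x ∈ c.X1, p • x ∈ c.X2) ∧ ∃ g ∈ c.S, cUnb c g

/-- iterated powers -/
noncomputable def powN : ℕ → VC b → VC b
  | 0, c => c
  | n + 1, c => (powN n c).pow

lemma powN_X1 (n : ℕ) (c : VC b) : (powN n c).X1 = c.X1 := by
  induction n with
  | zero => rfl
  | succ n ih => exact ih

lemma powN_X2 (n : ℕ) (c : VC b) : (powN n c).X2 = c.X2 := by
  induction n with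
  | zero => rfl
  | succ n ih => exact ih

lemma powN_S (n : ℕ) (c : VC b) (k : Fin d → ℤ_[p]) :
    k ∈ (powN n c).S ↔ ∃ h ∈ c.S, k = p ^ n • h := by
  induction n generalizing k with
  | zero =>
    constructor
    · intro h; exact ⟨k, h, by simp⟩
    · rintro ⟨h, hh, rfl⟩
      show p ^ 0 • h ∈ c.S
      simpa using hh
  | succ n ih =>
    show k ∈ (powN n c).pow.S ↔ _
    rw [VC.mem_pow]
    constructor
    · rintro ⟨h, hh, rfl⟩
      obtain ⟨g, hg, rfl⟩ := (ih h).1 hh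
      exact ⟨g, hg, by rw [pow_succ', mul_smul]⟩
    · rintro ⟨g, hg, rfl⟩
      exact ⟨p ^ n • g, (ih _).2 ⟨g, hg, rfl⟩, by rw [pow_succ', mul_smul]⟩

lemma powN_reach (n : ℕ) {c₀ c : VC b} (h : Reach c₀ c) : Reach c₀ (powN n c) := by
  induction n with
  | zero => exact h
  | succ n ih => exact ih.pow

lemma powN_triv (n : ℕ) (c : VC b) (k : Fin d → ℤ_[p]) : cTriv (powN n c) k ↔ cTriv c k := by
  unfold cTriv
  rw [powN_X1, powN_X2]

lemma powN_unb (n : ℕ) (c : VC b) (k : Fin d → ℤ_[p]) : cUnb (powN n c) k ↔ cUnb c k := by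
  unfold cUnb
  rw [powN_X1, powN_X2]

lemma Tpow1 (c : VC b) (k : Fin d → ℤ_[p]) (n : ℕ) {x : M} (hx : x ∈ c.X1) :
    (b.T k ^ n) x ∈ c.X1 := Tpow_mem b c.X1 k (fun _ hy => T_in_X1 c k hy) n x hx

lemma Tpow2 (c : VC b) (k : Fin d → ℤ_[p]) (n : ℕ) {x : M} (hx : x ∈ c.X2) :
    (b.T k ^ n) x ∈ c.X2 := Tpow_mem b c.X2 k (fun _ hy => T_in_X2 c k hy) n x hx

lemma pow_add_apply (k : Fin d → ℤ_[p]) (m n : ℕ) (x : M) :
    (b.T k ^ (m + n)) x = (b.T k ^ m) ((b.T k ^ n) x) := by rw [pow_add]; rfl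

lemma pow_succ_apply (k : Fin d → ℤ_[p]) (n : ℕ) (x : M) :
    (b.T k ^ (n + 1)) x = b.T k ((b.T k ^ n) x) := by rw [pow_succ']; rfl

lemma pow_succ_apply' (k : Fin d → ℤ_[p]) (n : ℕ) (x : M) :
    (b.T k ^ (n + 1)) x = (b.T k ^ n) (b.T k x) := by rw [pow_succ]; rfl

lemma Tpow_comm (k l : Fin d → ℤ_[p]) (n : ℕ) (x : M) :
    (b.T k ^ n) (b.T l x) = b.T l ((b.T k ^ n) x) :=
  congrArg (fun f : AddMonoid.End M => f x) ((T_comm b k l).pow_left n)

/-- modulo `X2` the operator `T_{p^j k}` is `T_k^(p^j)` -/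
lemma tq1 (c : VC b) (hk : ∀ x ∈ c.X1, p • x ∈ c.X2) (k : Fin d → ℤ_[p]) (j : ℕ) {x : M}
    (hx : x ∈ c.X1) : b.T (p ^ j • k) x - (b.T k ^ p ^ j) x ∈ c.X2 := by
  obtain ⟨P, hP⟩ := T_ppow b j k
  have h1 : b.T (p ^ j • k) x = (b.T k ^ p ^ j) x + p • (b.T k * Polynomial.aeval (b.T k) P) x := by
    rw [hP]; rfl
  rw [h1, add_sub_cancel_left]
  apply hk
  exact T_in_X1 c k (aeval_mem b c.X1 k (fun _ hy => T_in_X1 c k hy) P x hx)

lemma tq (c : VC b) (hk : ∀ x ∈ c.X1, p • x ∈ c.X2) (k : Fin d → ℤ_[p]) (j n : ℕ) {x : M}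
    (hx : x ∈ c.X1) : (b.T (p ^ j • k) ^ n) x - (b.T k ^ (p ^ j * n)) x ∈ c.X2 := by
  induction n with
  | zero => simp
  | succ n ih =>
    have h1 := T_in_X2 c (p ^ j • k) ih
    have h2 := tq1 c hk k j (Tpow1 c k (p ^ j * n) hx)
    have h3 := c.X2.add_mem h1 h2
    have e1 : (b.T k ^ (p ^ j * (n + 1))) x = (b.T k ^ p ^ j) ((b.T k ^ (p ^ j * n)) x) := by
      rw [← pow_add_apply, mul_add, mul_one, add_comm]
    rw [pow_succ_apply, e1]
    rw [map_sub] at h3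
    have e2 : b.T (p ^ j • k) ((b.T (p ^ j • k) ^ n) x) - (b.T k ^ p ^ j) ((b.T k ^ (p ^ j * n)) x)
      = b.T (p ^ j • k) ((b.T (p ^ j • k) ^ n) x) - b.T (p ^ j • k) ((b.T k ^ (p ^ j * n)) x) +
        (b.T (p ^ j • k) ((b.T k ^ (p ^ j * n)) x) -
          (b.T k ^ p ^ j) ((b.T k ^ (p ^ j * n)) x)) := by abel
    rw [e2]
    exact h3

lemma tq_mem (c : VC b) (hk : ∀ x ∈ c.X1, p • x ∈ c.X2) (k : Fin d → ℤ_[p]) (j n : ℕ) {x : M}
    (hx : x ∈ c.X1) : (b.T (p ^ j • k) ^ n) x ∈ c.X2 ↔ (b.T k ^ (p ^ j * n)) x ∈ c.X2 := by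
  have h := tq c hk k j n hx
  constructor
  · intro h1
    have := c.X2.sub_mem h1 h
    rwa [sub_sub_cancel] at this
  · intro h1
    have := c.X2.add_mem h h1
    rwa [sub_add_cancel] at this

lemma unb_pow (c : VC b) (hk : ∀ x ∈ c.X1, p • x ∈ c.X2) (g : Fin d → ℤ_[p]) (e : ℕ)
    (hg : cUnb c g) : cUnb c (p ^ e • g) := by
  intro n
  have hq : 1 ≤ p ^ e := Nat.one_le_pow _ _ (Fact.out : p.Prime).pos
  obtain ⟨x, hx, h1, h2⟩ := hg (p ^ e * (n + 1) - 1)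
  have e1 : p ^ e * (n + 1) - 1 + 1 = p ^ e * (n + 1) :=
    Nat.sub_add_cancel (Nat.one_le_iff_ne_zero.2 (by positivity))
  rw [e1] at h1
  refine ⟨x, hx, (tq_mem c hk g e (n + 1) hx).2 h1, fun h3 => h2 ?_⟩
  have h4 := (tq_mem c hk g e n hx).1 h3
  have e2 : p ^ e * (n + 1) - 1 = (p ^ e - 1) + p ^ e * n := by
    rw [mul_add, mul_one]; omega
  rw [e2, pow_add_apply]
  exact Tpow2 c g _ h4

/-- multiplication by `p^e` preserves the rank -/
lemma finrank_pow (A : Submodule ℤ_[p] (Fin d → ℤ_[p])) (e : ℕ) :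
    Module.finrank ℤ_[p]
      (A.map (LinearMap.lsmul ℤ_[p] (Fin d → ℤ_[p]) ((p : ℤ_[p]) ^ e))) =
      Module.finrank ℤ_[p] A := by
  have hinj : Function.Injective (LinearMap.lsmul ℤ_[p] (Fin d → ℤ_[p]) ((p : ℤ_[p]) ^ e)) := by
    intro x y h
    have h1 : (p : ℤ_[p]) ^ e • x = (p : ℤ_[p]) ^ e • y := h
    have h2 : (p : ℤ_[p]) ^ e ≠ 0 := pow_ne_zero _ (by
      exact_mod_cast (Fact.out : p.Prime).ne_zero)
    exact smul_right_injective _ h2 h1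
  exact (LinearEquiv.finrank_eq (Submodule.equivMapOfInjective _ hinj A)).symm

lemma rk_powN (c : VC b) (e : ℕ) : rk (powN e c) ≤ rk c := by
  unfold rk
  have h1 : Module.finrank ℤ_[p] (powN e c).S ≤ Module.finrank ℤ_[p] c.S := by
    apply finrank_mono
    intro k hk
    obtain ⟨h, hh, rfl⟩ := (powN_S e c k).1 hk
    exact nsmul_mem' _ hh _
  have h2 : Module.finrank ℤ_[p] (SX c) ≤ Module.finrank ℤ_[p] (SX (powN e c)) := by
    rw [← finrank_pow (SX c) e]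
    apply finrank_mono
    intro k hk
    obtain ⟨h, hh, rfl⟩ := Submodule.mem_map.1 hk
    rw [LinearMap.lsmul_apply, cast_pow_smul, mem_SX, powN_S, powN_triv]
    have h3 := nsmul_mem' _ hh (p ^ e)
    rw [mem_SX] at hh h3
    exact ⟨⟨h, hh.1, rfl⟩, h3.2⟩
  omega

lemma exists_min {c₀ : VC b} (h : ∃ c, EE c₀ c) :
    ∃ c, EE c₀ c ∧ ∀ c', EE c₀ c' → rk c ≤ rk c' := by
  classical
  have hex : ∃ n : ℕ, ∃ c, EE c₀ c ∧ rk c = n := by
    obtain ⟨c, hc⟩ := h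
    exact ⟨_, c, hc, rfl⟩
  obtain ⟨c, hc, hcn⟩ := Nat.find_spec hex
  refine ⟨c, hc, fun c' hc' => ?_⟩
  rw [hcn]
  exact Nat.find_min' hex ⟨c', hc', rfl⟩

/-- step (0) -/
lemma exists_tf {c₀ : VC b} (h : ∃ c, EE c₀ c) :
    ∃ c, EE c₀ c ∧ (∀ c', EE c₀ c' → rk c ≤ rk c') ∧
      ∀ k ∈ c.S, cTriv c (p • k) → cTriv c k := by
  obtain ⟨c, hc, hmin⟩ := exists_min h
  -- the chain
  let A := SX c
  let Q : ℕ →o Submodule ℤ_[p] (Fin d → ℤ_[p]) :=
    ⟨fun t => A.comap (LinearMap.lsmul ℤ_[p] (Fin d → ℤ_[p]) ((p : ℤ_[p]) ^ t)), by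
      refine monotone_nat_of_le_succ fun t k hk => ?_
      rw [Submodule.mem_comap, LinearMap.lsmul_apply] at hk ⊢
      rw [pow_succ', mul_smul]
      exact A.smul_mem _ hk⟩
  have hQ : ∀ t k, k ∈ Q t ↔ p ^ t • k ∈ A := by
    intro t k
    show k ∈ A.comap _ ↔ _
    rw [Submodule.mem_comap, LinearMap.lsmul_apply, cast_pow_smul]
  obtain ⟨e, he⟩ := (monotone_stabilizes_iff_noetherian (R := ℤ_[p])
    (M := Fin d → ℤ_[p])).2 inferInstance Q
  obtain ⟨hR, hk, g, hg, hgu⟩ := hc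
  refine ⟨powN e c, ⟨powN_reach e hR, ?_, p ^ e • g, ?_, ?_⟩, ?_, ?_⟩
  · rw [powN_X1, powN_X2]; exact hk
  · rw [powN_S]; exact ⟨g, hg, rfl⟩
  · rw [powN_unb]; exact unb_pow c hk g e hgu
  · intro c' hc'
    exact (rk_powN c e).trans (hmin c' hc')
  · intro k hkS hkt
    rw [powN_triv] at hkt ⊢
    obtain ⟨h, hh, rfl⟩ := (powN_S e c k).1 hkS
    have h1 : h ∈ Q (e + 1) := by
      rw [hQ]
      show _ ∈ SX c
      rw [mem_SX, pow_succ', mul_smul]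
      exact ⟨nsmul_mem' _ (nsmul_mem' _ hh _) _, hkt⟩
    rw [← he (e + 1) (by omega), hQ] at h1
    have h2 : _ ∈ SX c := h1
    exact (mem_SX.1 h2).2

/-- Baire for the operators `T_{p^t k}` -/
lemma baire_unif (hB : StmtBaire.{u}) (S : Submodule ℤ_[p] (Fin d → ℤ_[p])) (Z Y : AddSubgroup M)
    (hZ : IsClosed (Z : Set M)) (hY : IsClosed (Y : Set M))
    (h : ∀ x ∈ Z, ∃ t : ℕ, ∀ k ∈ S, b.T (p ^ t • k) x ∈ Y) :
    ∃ t : ℕ, ∀ k ∈ S, ∀ x ∈ Z, b.T (p ^ t • k) x ∈ Y := by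
  have : CompactSpace Z := isCompact_iff_compactSpace.1 hZ.isCompact
  let A : ℕ → AddSubgroup Z := fun t =>
    { carrier := {x | ∀ k ∈ S, b.T (p ^ t • k) x ∈ Y}
      zero_mem' := fun k _ => by
        show b.T (p ^ t • k) ((0 : Z) : M) ∈ Y
        rw [ZeroMemClass.coe_zero, map_zero]; exact Y.zero_mem
      add_mem' := fun {x y} hx hy k hk => by
        show b.T (p ^ t • k) ((x + y : Z) : M) ∈ Y
        rw [AddMemClass.coe_add, map_add]; exact Y.add_mem (hx k hk) (hy k hk)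
      neg_mem' := fun {x} hx k hk => by
        show b.T (p ^ t • k) ((-x : Z) : M) ∈ Y
        rw [NegMemClass.coe_neg, map_neg]; exact Y.neg_mem (hx k hk) }
  have h1 : Monotone A := by
    refine monotone_nat_of_le_succ fun t x hx k hk => ?_
    rw [pow_succ, mul_smul]
    exact hx _ (nsmul_mem' _ hk _)
  have h2 : ∀ t, IsClosed (A t : Set Z) := by
    intro t
    have h1 : (A t : Set Z) = ⋂ k ∈ S, {x : Z | b.T (p ^ t • k) x ∈ Y} := by
      ext x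
      simp only [Set.mem_iInter, Set.mem_ofPred_eq]
      rfl
    rw [h1]
    refine isClosed_iInter fun k => isClosed_iInter fun _ => ?_
    exact hY.preimage ((cont_T b _).comp continuous_subtype_val)
  have h3 : ∀ y : Z, ∃ n, y ∈ A n := by
    rintro ⟨x, hx⟩
    obtain ⟨t, ht⟩ := h x hx
    exact ⟨t, ht⟩
  obtain ⟨n, hn⟩ := hB Z A h1 h2 h3
  exact ⟨n, fun k hk x hx => hn ⟨x, hx⟩ k hk⟩

/-- the stabilisers are large -/
lemma stab_large {c₀ c : VC b} (hc : EE c₀ c) (hmin : ∀ c', EE c₀ c' → rk c ≤ rk c')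
    (u v : Fin d → ℤ_[p]) (x : M) (hx : x ∈ c.X1) (huu : cUnb c u)
    (hu : u ∈ (c.stab v x).S) : ∃ t : ℕ, ∀ k ∈ c.S, p ^ t • k ∈ (c.stab v x).S := by
  apply unif
  have h0 : (c.stab v x).S ≤ c.S := fun k hk => (VC.mem_stab.1 hk).1
  have h1 : EE c₀ (c.stab v x) := ⟨hc.1.stab v x, hc.2.1, u, hu, huu⟩
  have h2 := hmin _ h1
  have h3 : SX c ≤ SX (c.stab v x) := by
    intro k hk
    rw [mem_SX] at hk ⊢
    refine ⟨VC.mem_stab.2 ⟨hk.1, 0, c.X1.zero_mem, ?_⟩, hk.2⟩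
    rw [map_zero, sub_zero]
    exact hk.2 x hx
  have h4 := finrank_mono h3
  have h5 := finrank_mono (SX_le (c.stab v x))
  have h6 := finrank_mono (SX_le c)
  unfold rk at h2
  intro q hq
  obtain ⟨t, ht⟩ := Pool.Agent.Helper10.ProC.stmtRank p d _ _ h0 (by omega) q hq
  exact ⟨t, by rwa [cast_pow_smul] at ht⟩

theorem pf_ME (hB : StmtBaire.{u}) {c₀ : VC b} (h : ∃ c, EE c₀ c) :
    ∃ c : VC b, Reach c₀ c ∧ HypEs c := by
  obtain ⟨c, hc, hmin, htf⟩ := exists_tf h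
  obtain ⟨hR, hk, g, hg, hgu⟩ := id hc
  refine ⟨c, hR, ?_⟩
  have hdom1 : ∀ u ∈ c.S, cUnb c u → ∃ m : ℕ, ∀ k ∈ c.S, ∀ x ∈ c.X1,
      b.T (p ^ m • k) x ∈ imS c (b.T u) := by
    intro u hu huu
    refine baire_unif hB c.S c.X1 (imS c (b.T u)) c.c1 (closed_imS c (cont_T b u)) ?_
    intro x hx
    obtain ⟨t, ht⟩ := stab_large hc hmin u u x hx huu
      (VC.mem_stab.2 ⟨hu, x, hx, by rw [sub_self]; exact c.X2.zero_mem⟩)
    refine ⟨t, fun k hk => ?_⟩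
    rw [mem_imS]
    exact (VC.mem_stab.1 (ht k hk)).2
  have hdom2 : ∀ u ∈ c.S, cUnb c u → ∃ m : ℕ, ∀ k ∈ c.S, ∀ x ∈ (c.ker u).X1,
      b.T (p ^ m • k) x ∈ c.X2 := by
    intro u hu huu
    refine baire_unif hB c.S (c.ker u).X1 c.X2 (c.ker u).c1 c.c2 ?_
    intro x hx
    rw [VC.mem_ker] at hx
    obtain ⟨t, ht⟩ := stab_large hc hmin u 0 x hx.1 huu
      (VC.mem_stab.2 ⟨hu, 0, c.X1.zero_mem, by rw [map_zero, sub_zero]; exact hx.2⟩)
    refine ⟨t, fun k hk => ?_⟩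
    obtain ⟨y, hy, h1⟩ := (VC.mem_stab.1 (ht k hk)).2
    rw [T_zero] at h1
    have h2 : (0 : AddMonoid.End M) y = 0 := rfl
    rwa [h2, sub_zero] at h1
  have htfN : ∀ s : ℕ, ∀ k ∈ c.S, cTriv c (p ^ s • k) → cTriv c k := by
    intro s
    induction s with
    | zero => intro k _ h; simpa using h
    | succ s ih =>
      intro k hkS h
      rw [pow_succ', mul_smul] at h
      exact ih k hkS (htf _ (nsmul_mem' _ hkS _) h)
  have hunb : ∀ u ∈ c.S, ¬ cTriv c u → cUnb c u := by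
    intro u hu hut
    by_contra hnb
    unfold cUnb at hnb
    push Not at hnb
    obtain ⟨n, hn⟩ := hnb
    have hn2 : ∀ j, n ≤ j → ∀ x ∈ c.X1, (b.T u ^ j) x ∈ c.X2 → (b.T u ^ n) x ∈ c.X2 := by
      intro j hj
      induction j, hj using Nat.le_induction with
      | base => intro x _ h; exact h
      | succ j hj ih =>
        intro x hx h
        apply ih x hx
        have e1 : j + 1 = (n + 1) + (j - n) := by omega
        have e2 : j = n + (j - n) := by omega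
        rw [e1, pow_add_apply] at h
        rw [e2, pow_add_apply]
        exact hn _ (Tpow1 c u _ hx) h
    have hn3 : ∀ j, ∀ x ∈ c.X1, (b.T u ^ j) x ∈ c.X2 → (b.T u ^ n) x ∈ c.X2 := by
      intro j x hx h
      rcases le_total n j with h1 | h1
      · exact hn2 j h1 x hx h
      · have e1 : n = (n - j) + j := by omega
        rw [e1, pow_add_apply]
        exact Tpow2 c u _ h
    obtain ⟨m, hm⟩ := hdom2 g hg hgu
    have hV : ∀ j, ∀ x ∈ c.X1, (b.T g ^ j) x ∈ c.X2 → (b.T (p ^ m • u) ^ j) x ∈ c.X2 := by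
      intro j
      induction j with
      | zero => intro x _ h; exact h
      | succ j ih =>
        intro x hx h
        rw [pow_succ_apply'] at h
        have h1 := ih _ (T_in_X1 c g hx) h
        rw [Tpow_comm] at h1
        rw [pow_succ_apply]
        exact hm u hu _ (VC.mem_ker.2 ⟨Tpow1 c _ _ hx, h1⟩)
    have hnq : n ≤ p ^ n := (Nat.lt_pow_self (Fact.out : p.Prime).one_lt).le
    have hin : ∀ j, ∀ x ∈ c.X1, (b.T g ^ j) x ∈ c.X2 → x ∈ (c.ker (p ^ n • u)).X1 := by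
      intro j x hx h
      have h1 := (tq_mem c hk u m j hx).1 (hV j x hx h)
      have h2 := hn3 _ x hx h1
      have h3 : (b.T u ^ (p ^ n * 1)) x ∈ c.X2 := by
        have e1 : p ^ n * 1 = (p ^ n - n) + n := by omega
        rw [e1, pow_add_apply]
        exact Tpow2 c u _ h2
      have h4 := (tq_mem c hk u n 1 hx).2 h3
      rw [pow_one] at h4
      exact VC.mem_ker.2 ⟨hx, h4⟩
    have hc' : EE c₀ (c.ker (p ^ n • u)) := by
      refine ⟨hR.ker _, fun x hx => hk x hx.1, g, hg, ?_⟩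
      intro N
      obtain ⟨x, hx, h1, h2⟩ := hgu N
      exact ⟨x, hin (N + 1) x hx h1, h1, h2⟩
    have h2 := hmin _ hc'
    have h3 : SX c ≤ SX (c.ker (p ^ n • u)) := by
      intro k hk
      rw [mem_SX] at hk ⊢
      exact ⟨hk.1, fun x hx => hk.2 x hx.1⟩
    have h4 : Module.finrank ℤ_[p] (c.ker (p ^ n • u)).S = Module.finrank ℤ_[p] c.S := rfl
    have h5 := finrank_mono (SX_le (c.ker (p ^ n • u)))
    have h6 := finrank_mono (SX_le c)
    have h7 := finrank_mono h3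
    unfold rk at h2
    have hl : p ^ n • u ∈ SX (c.ker (p ^ n • u)) := by
      rw [mem_SX]
      exact ⟨nsmul_mem' _ hu _, fun x hx => (VC.mem_ker.1 hx).2⟩
    obtain ⟨t, ht⟩ := Pool.Agent.Helper10.ProC.stmtRank p d _ _ h3 (by omega) _ hl
    rw [cast_pow_smul, mem_SX] at ht
    exact hut (htfN n u hu (htfN t _ (nsmul_mem' _ hu _) ht.2))
  refine ⟨hk, htf, ⟨g, hg, fun h => ?_⟩, ?_, hunb⟩
  · obtain ⟨x, hx, -, h2⟩ := hgu 1
    rw [pow_one] at h2
    exact h2 (h x hx)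
  · intro u hu hut
    have huu := hunb u hu hut
    obtain ⟨m1, hm1⟩ := hdom1 u hu huu
    obtain ⟨m2, hm2⟩ := hdom2 u hu huu
    refine ⟨m1 + m2, fun k hk => ⟨fun x hx => ?_, fun x hx h => ?_⟩⟩
    · rw [← mem_imS, pow_add, mul_smul]
      exact hm1 _ (nsmul_mem' _ hk _) x hx
    · rw [add_comm, pow_add, mul_smul]
      exact hm2 _ (nsmul_mem' _ hk _) x (VC.mem_ker.2 ⟨hx, h⟩)

end

theorem stmtME (hB : StmtBaire.{u}) : StmtME.{u} := by
  intro p _ d M _ _ _ _ _ b c₀ h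
  exact pf_ME hB h

end Pool.Agent.Helper99.Full
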