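import Pool.Agent.Helper30.Full.GoalsG
import Pool.Agent.Helper51.ProP2.Rk

/-!
# MP_ac806c_lc: powers of an abelian section `S / C` are finitely generated
-/

set_option autoImplicit false
set_option linter.unusedSectionVars false

namespace Pool.Agent.Helper99.Full

open Pool.Agent.Helper85.ProP Pool.Agent.Helper27.ProP Pool.Agent.Helper30.ProP
  Pool.Agent.Helper30.Full Filter Topology

universe u

/-- the algebraic step: submodules with factors of exponent `p` or finitely generated -/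
lemma fg_pow {p : ℕ} [Fact p.Prime] {B : Type*} [AddCommGroup B] [Module ℤ_[p] B]
    (Bs : ℕ → Submodule ℤ_[p] B) (h0 : Bs 0 = ⊥) (n : ℕ)
    (hs : ∀ i < n, (∀ x ∈ Bs (i + 1), (p : ℤ_[p]) • x ∈ Bs i) ∨
      ∃ Y : Submodule ℤ_[p] B, Y.FG ∧ Bs (i + 1) ≤ Bs i ⊔ Y) :
    ∀ i ≤ n, ((Bs i).map (LinearMap.lsmul ℤ_[p] B ((p : ℤ_[p]) ^ i))).FG := by
  intro i
  induction i with
  | zero =>
    intro _
    rw [h0, Submodule.map_bot]
    exact Submodule.fg_bot
  | succ i ih =>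
    intro hi
    have h1 := ih (by omega)
    have hle : ∀ Y : Submodule ℤ_[p] B, Y.map (LinearMap.lsmul ℤ_[p] B ((p : ℤ_[p]) ^ (i + 1))) ≤
        Y.map (LinearMap.lsmul ℤ_[p] B ((p : ℤ_[p]) ^ i)) := by
      rintro Y _ ⟨y, hy, rfl⟩
      refine ⟨(p : ℤ_[p]) • y, Y.smul_mem _ hy, ?_⟩
      rw [LinearMap.lsmul_apply, LinearMap.lsmul_apply, smul_smul, ← pow_succ]
    rcases hs i (by omega) with h | ⟨Y, hY, hBY⟩
    · refine h1.of_le ?_
      rintro _ ⟨y, hy, rfl⟩
      refine ⟨(p : ℤ_[p]) • y, h y hy, ?_⟩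
      rw [LinearMap.lsmul_apply, LinearMap.lsmul_apply, smul_smul, ← pow_succ]
    · refine ((h1.sup (hY.map (LinearMap.lsmul ℤ_[p] B ((p : ℤ_[p]) ^ i))))).of_le ?_
      rw [← Submodule.map_sup]
      exact (hle _).trans (Submodule.map_mono hBY)

theorem powgen (p : ℕ) [Fact p.Prime] {G : Type u} [Group G]
    [TopologicalSpace G] [IsTopologicalGroup G] [CompactSpace G] [T2Space G]
    [TotallyDisconnectedSpace G] (hp : PP p G) (S C : Subgroup G) (hS : IsClosed (S : Set G))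
    (hC : IsClosed (C : Set G)) (hCn : C.Normal) (_hCS : C ≤ S)
    (hcm : ∀ a ∈ S, ∀ b ∈ S, cm a b ∈ C) (V : Subgroup G) (hV : V ≤ C) (n : ℕ)
    (hser : FES p V n) :
    ∃ (d : ℕ) (t : Fin d → G), (∀ i, ∃ r ∈ S, t i = r ^ p ^ n) ∧
      ∀ H : Subgroup G, IsClosed (H : Set G) → C ≤ H → (∀ i, t i ∈ H) → ∀ r ∈ S, r ^ p ^ n ∈ H := by
  classical
  obtain ⟨N, hN0, hNn, hNc, hNs⟩ := hser
  have hSc : CompactSpace S := isCompact_iff_compactSpace.1 hS.isCompact
  set K' : Subgroup S := C.subgroupOf S with hK'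
  have hK'n : K'.Normal := inferInstance
  have hK'c : IsClosed (K' : Set S) := hC.preimage continuous_subtype_val
  have : T2Space (S ⧸ K') := inferInstance
  let : CommGroup (S ⧸ K') := { (inferInstance : Group (S ⧸ K')) with
    mul_comm := by
      intro a b
      induction a using QuotientGroup.induction_on with
      | H a =>
      induction b using QuotientGroup.induction_on with
      | H b =>
      have h : cm a b ∈ K' := by
        rw [hK', Subgroup.mem_subgroupOf]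
        exact hcm a.1 a.2 b.1 b.2
      have h2 : ((cm a b : S) : S ⧸ K') = 1 := (QuotientGroup.eq_one_iff _).2 h
      have h3 : (a : S ⧸ K') * b * (a : S ⧸ K')⁻¹ * (b : S ⧸ K')⁻¹ = 1 := h2
      exact commutatorElement_eq_one_iff_mul_comm.1 h3 }
  have : IsTopologicalAddGroup (Additive (S ⧸ K')) := inferInstance
  have : T2Space (Additive (S ⧸ K')) := inferInstanceAs (T2Space (S ⧸ K'))
  obtain ⟨M, hM⟩ := exists_zp Pool.Agent.Helper79.ProP.stmtT1 p (Additive (S ⧸ K')) (by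
    intro V hV h0
    have hV' : IsOpen ((fun g : S => (Additive.ofMul (g : S ⧸ K'))) ⁻¹' V) :=
      hV.preimage QuotientGroup.continuous_mk
    obtain ⟨W, hW, hWV⟩ := isOpen_induced_iff.1 hV'
    have h1W : (1 : G) ∈ W := by
      have : (1 : S) ∈ ((fun g : S => (Additive.ofMul (g : S ⧸ K'))) ⁻¹' V) := h0
      rw [← hWV] at this
      exact this
    obtain ⟨O, hO⟩ := ProfiniteGrp.exist_openNormalSubgroup_sub_open_nhds_of_one hW h1W
    have hOn := O.isNormal'
    refine ⟨Subgroup.toAddSubgroup ((O.toSubgroup.subgroupOf S).map (QuotientGroup.mk' K')),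
      ?_, ?_, ?_⟩
    · exact QuotientGroup.isOpenMap_coe _ (O.isOpen'.preimage continuous_subtype_val)
    · rintro _ ⟨g, hg, rfl⟩
      have h5 : g ∈ (Subtype.val ⁻¹' W : Set S) := hO hg
      rw [hWV] at h5
      exact h5
    · obtain ⟨n, hn⟩ := hp O.toSubgroup O.isNormal' O.isOpen'
      refine ⟨n, ?_⟩
      intro b
      obtain ⟨g, hg⟩ := QuotientGroup.mk_surjective (Additive.toMul b)
      refine ⟨g ^ p ^ n, ?_, ?_⟩
      · have := O.toSubgroup.pow_index_mem g.1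
        rw [hn] at this
        exact this
      · show ((g ^ p ^ n : S) : S ⧸ K') = Additive.toMul (p ^ n • b)
        rw [toMul_nsmul, ← hg, QuotientGroup.mk_pow])
  -- the class of an element
  let cl : S → Additive (S ⧸ K') := fun g => Additive.ofMul (g : S ⧸ K')
  have hclsurj : ∀ b, ∃ g, cl g = b := by
    intro b
    obtain ⟨g, hg⟩ := QuotientGroup.mk_surjective (Additive.toMul b)
    exact ⟨g, congrArg Additive.ofMul hg⟩
  have hclpow : ∀ (g : S) (k : ℕ), cl (g ^ k) = k • cl g := fun g k => rfl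
  have hcleq : ∀ g h : S, cl g = cl h ↔ g⁻¹ * h ∈ K' := by
    intro g h
    have h1 : (g : S ⧸ K') = h ↔ g⁻¹ * h ∈ K' := QuotientGroup.eq
    exact h1
  have hclcont : Continuous cl := QuotientGroup.continuous_mk
  -- images of closed subgroups
  let im : Subgroup G → AddSubgroup (Additive (S ⧸ K')) := fun H =>
    Subgroup.toAddSubgroup ((H.subgroupOf S).map (QuotientGroup.mk' K'))
  have mem_im : ∀ H b, b ∈ im H ↔ ∃ g : S, (g : G) ∈ H ∧ cl g = b := by
    intro H b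
    constructor
    · rintro ⟨g, hg, h⟩
      exact ⟨g, hg, congrArg Additive.ofMul h⟩
    · rintro ⟨g, hg, rfl⟩
      exact ⟨g, hg, rfl⟩
  have himg : ∀ H : Subgroup G, IsClosed (H : Set G) →
      IsClosed (im H : Set (Additive (S ⧸ K'))) := by
    intro H hH
    have h1 : IsClosed ((H.subgroupOf S : Subgroup S) : Set S) :=
      hH.preimage continuous_subtype_val
    exact (h1.isCompact.image QuotientGroup.continuous_mk).isClosed
  let Bs : ℕ → Submodule ℤ_[p] (Additive (S ⧸ K')) := fun i =>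
    toSub hM (im (N i)) (himg _ (hNc i).2)
  have mem_Bs : ∀ i b, b ∈ Bs i ↔ ∃ g : S, (g : G) ∈ N i ∧ cl g = b := fun i b => mem_im _ b
  -- preimages of closed subgroups
  have hpre : ∀ A : AddSubgroup (Additive (S ⧸ K')), IsClosed (A : Set (Additive (S ⧸ K'))) →
      ∃ P : Subgroup G, IsClosed (P : Set G) ∧ ∀ g, g ∈ P ↔ ∃ hg : g ∈ S, cl ⟨g, hg⟩ ∈ A := by
    intro A hA
    let P0 : Subgroup S := (AddSubgroup.toSubgroup A).comap (QuotientGroup.mk' K')
    have h1 : IsClosed (P0 : Set S) := hA.preimage QuotientGroup.continuous_mk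
    refine ⟨P0.map S.subtype, ?_, ?_⟩
    · have h6 : ((P0.map S.subtype : Subgroup G) : Set G) = Subtype.val '' (P0 : Set S) := rfl
      rw [h6]
      exact hS.isClosedEmbedding_subtypeVal.isClosedMap _ h1
    · intro g
      constructor
      · rintro ⟨x, hx, rfl⟩
        exact ⟨x.2, hx⟩
      · rintro ⟨hg, h⟩
        exact ⟨⟨g, hg⟩, h, rfl⟩
  have hB0 : Bs 0 = ⊥ := by
    rw [eq_bot_iff]
    intro b hb
    obtain ⟨g, hg, rfl⟩ := (mem_Bs 0 b).1 hb
    rw [Submodule.mem_bot]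
    have h1 : g ∈ K' := by
      rw [hK', Subgroup.mem_subgroupOf]
      rw [hN0] at hg
      exact hV hg
    have h2 : ((g : S) : S ⧸ K') = 1 := (QuotientGroup.eq_one_iff _).2 h1
    exact h2
  have hstep : ∀ i < n, (∀ x ∈ Bs (i + 1), (p : ℤ_[p]) • x ∈ Bs i) ∨
      ∃ Y : Submodule ℤ_[p] (Additive (S ⧸ K')), Y.FG ∧ Bs (i + 1) ≤ Bs i ⊔ Y := by
    intro i hi
    obtain ⟨hle, hab, hor⟩ := hNs i hi
    rcases hor with h | h
    · left
      intro x hx
      obtain ⟨g, hg, rfl⟩ := (mem_Bs _ _).1 hx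
      rw [Nat.cast_smul_eq_nsmul, ← hclpow, mem_Bs]
      exact ⟨g ^ p, h _ hg, rfl⟩
    · right
      obtain ⟨r, hr⟩ := Pool.Agent.Helper51.ProP2.stmtRk p G hp (N i) (N (i + 1)) (hNc i).1
        (hNc i).2 (hNc (i + 1)).1 (hNc (i + 1)).2 hle hab h
      obtain ⟨t, ht, hgen⟩ := hr S hS
      let τ : Fin r → Additive (S ⧸ K') := fun j => cl ⟨t j, (ht j).1⟩
      refine ⟨Submodule.span ℤ_[p] (Set.range τ), Submodule.fg_span (Set.finite_range τ), ?_⟩
      have hclosed : IsClosed (((Bs i ⊔ Submodule.span ℤ_[p] (Set.range τ)).toAddSubgroup :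
          AddSubgroup (Additive (S ⧸ K'))) : Set (Additive (S ⧸ K'))) := by
        rw [Submodule.sup_toAddSubgroup]
        refine Pool.Agent.Helper85.ProC.closed_sup ?_ ?_
        · exact himg _ (hNc i).2
        · exact closed_span hM τ
      obtain ⟨P, hPc, hP⟩ := hpre _ hclosed
      have h1 : S ⊓ N (i + 1) ≤ P := by
        apply hgen P hPc
        · rintro g ⟨hgS, hgN⟩
          rw [hP]
          refine ⟨hgS, ?_⟩
          have : cl ⟨g, hgS⟩ ∈ Bs i := (mem_Bs _ _).2 ⟨⟨g, hgS⟩, hgN, rfl⟩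
          exact Submodule.mem_sup_left this
        · intro j
          rw [hP]
          refine ⟨(ht j).1, ?_⟩
          have : τ j ∈ Submodule.span ℤ_[p] (Set.range τ) := Submodule.subset_span ⟨j, rfl⟩
          exact Submodule.mem_sup_right this
      intro b hb
      obtain ⟨g, hg, rfl⟩ := (mem_Bs _ _).1 hb
      obtain ⟨hgS, h2⟩ := (hP g).1 (h1 ⟨g.2, hg⟩)
      exact h2
  have hfg := fg_pow Bs hB0 n hstep n le_rfl
  rw [Submodule.fg_iff_exists_fin_generating_family] at hfg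
  obtain ⟨d, s, hs⟩ := hfg
  have hsr : ∀ i, ∃ r : S, cl (r ^ p ^ n) = s i := by
    intro i
    have h1 : s i ∈ (Bs n).map (LinearMap.lsmul ℤ_[p] (Additive (S ⧸ K')) ((p : ℤ_[p]) ^ n)) := by
      rw [← hs]; exact Submodule.subset_span ⟨i, rfl⟩
    obtain ⟨b, hb, h2⟩ := h1
    obtain ⟨r, rfl⟩ := hclsurj b
    refine ⟨r, ?_⟩
    rw [← h2, LinearMap.lsmul_apply, hclpow, ← Nat.cast_pow, Nat.cast_smul_eq_nsmul]
  choose r hr using hsr
  refine ⟨d, fun i => (r i : G) ^ p ^ n, fun i => ⟨r i, (r i).2, rfl⟩, ?_⟩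
  intro H hH hCH htH x hx
  have h1 : Submodule.span ℤ_[p] (Set.range s) ≤ toSub hM (im H) (himg H hH) := by
    rw [Submodule.span_le]
    rintro _ ⟨i, rfl⟩
    rw [← hr i]
    exact (mem_im H _).2 ⟨r i ^ p ^ n, htH i, rfl⟩
  have h2 : cl (⟨x, hx⟩ ^ p ^ n) ∈ Submodule.span ℤ_[p] (Set.range s) := by
    rw [hs]
    refine ⟨cl ⟨x, hx⟩, ?_, ?_⟩
    · exact (mem_Bs n _).2 ⟨⟨x, hx⟩, by rw [hNn]; trivial, rfl⟩
    · rw [LinearMap.lsmul_apply, hclpow, ← Nat.cast_pow, Nat.cast_smul_eq_nsmul]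
  obtain ⟨g, hg, hg2⟩ := (mem_im H _).1 (h1 h2)
  rw [hcleq, hK', Subgroup.mem_subgroupOf] at hg2
  have h3 : (g : G)⁻¹ * x ^ p ^ n ∈ C := hg2
  have h4 := H.mul_mem hg (hCH h3)
  rwa [mul_inv_cancel_left] at h4

end Pool.Agent.Helper99.Full
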